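import Pool.Agent.Y466.TQ.Stm
import Pool.Agent.Y466.KS.Sum

/-! # TQ-SIG: a lower bound for the signature -/

set_option autoImplicit false
set_option synthInstance.maxSize 100000

namespace Pool.Agent.Y47.TQ

open Matrix
open scoped Kronecker
open Pool.Agent.Y466.TQ (M SIG signature)

theorem quadM (Q : Matrix (Fin 4 × Fin 4) (Fin 12) ℤ) (d : Fin 12 → ℤ)
    (hQ : Qᵀ * M * Q = diagonal d) (v : Fin 12 → ℝ) :
    ∑ p, ∑ q, (∑ i, (Q p i : ℝ) * v i) * (M p q : ℝ) * (∑ i, (Q q i : ℝ) * v i) =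
      ∑ i, (d i : ℝ) * v i ^ 2 := by
  set Q' : Matrix (Fin 4 × Fin 4) (Fin 12) ℝ := Q.map (Int.cast : ℤ → ℝ) with hQ'
  set M' : Matrix (Fin 4 × Fin 4) (Fin 4 × Fin 4) ℝ := M.map (Int.cast : ℤ → ℝ) with hM'
  have h1 : Q'ᵀ * M' * Q' = diagonal (fun i => (d i : ℝ)) := by
    have h2 : (Qᵀ * M * Q).map (Int.castRingHom ℝ) = Q'ᵀ * M' * Q' := by
      rw [Matrix.map_mul, Matrix.map_mul]
      rfl
    rw [← h2, hQ]
    ext i j
    by_cases hij : i = j
    · subst hij
      simp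
    · simp [hij]
  have h3 : ∑ p, ∑ q, (∑ i, (Q p i : ℝ) * v i) * (M p q : ℝ) * (∑ i, (Q q i : ℝ) * v i) =
      (Q' *ᵥ v) ⬝ᵥ (M' *ᵥ (Q' *ᵥ v)) := by
    simp only [dotProduct, mulVec]
    refine Finset.sum_congr rfl fun p _ => ?_
    rw [Finset.mul_sum]
    refine Finset.sum_congr rfl fun q _ => ?_
    simp only [hQ', hM', Matrix.map_apply]
    ring
  have h4 : (Q' *ᵥ v) ⬝ᵥ (M' *ᵥ (Q' *ᵥ v)) = v ⬝ᵥ ((Q'ᵀ * M' * Q') *ᵥ v) := by
    rw [← mulVec_mulVec, ← mulVec_mulVec, dotProduct_mulVec v Q'ᵀ, vecMul_transpose]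
  rw [h3, h4, h1]
  simp only [dotProduct, mulVec_diagonal]
  refine Finset.sum_congr rfl fun i _ => ?_
  ring

theorem sig : SIG := by
  intro α β _ _ _ _ A Q d hd hQ
  set G : Matrix (α ⊕ β × (Fin 4 × Fin 4)) (α ⊕ β × (Fin 4 × Fin 4)) ℤ :=
    fromBlocks A 0 0 ((1 : Matrix β β ℤ) ⊗ₖ M) with hG
  let φ : (β × Fin 12 → ℝ) →ₗ[ℝ] (α ⊕ β × (Fin 4 × Fin 4) → ℝ) :=
    { toFun := fun y => Sum.elim (fun _ => 0) (fun bp => ∑ i, (Q bp.2 i : ℝ) * y (bp.1, i))
      map_add' := by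
        intro y z
        funext s
        rcases s with s | s
        · simp
        · simp [mul_add, Finset.sum_add_distrib]
      map_smul' := by
        intro c y
        funext s
        rcases s with s | s
        · simp
        · simp only [Sum.elim_inr, Pi.smul_apply, smul_eq_mul, RingHom.id_apply, Finset.mul_sum]
          refine Finset.sum_congr rfl fun i _ => ?_
          ring }
  have hval : ∀ y, Pool.Agent.Y466.KS.QF G (φ y) = ∑ b, ∑ i, (d i : ℝ) * y (b, i) ^ 2 := by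
    intro y
    rw [Pool.Agent.Y466.KS.QF_apply]
    simp only [Fintype.sum_sum_type, φ, LinearMap.coe_mk, AddHom.coe_mk, Sum.elim_inl,
      Sum.elim_inr, zero_mul, mul_zero, Finset.sum_const_zero, zero_add]
    rw [Fintype.sum_prod_type]
    refine Finset.sum_congr rfl fun b _ => ?_
    rw [← quadM Q d hQ fun i => y (b, i)]
    refine Finset.sum_congr rfl fun p _ => ?_
    rw [Fintype.sum_prod_type, Finset.sum_eq_single b]
    · refine Finset.sum_congr rfl fun q _ => ?_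
      simp [hG, kroneckerMap_apply]
    · intro b' _ hb'
      refine Finset.sum_eq_zero fun q _ => ?_
      simp [hG, kroneckerMap_apply, Matrix.one_apply_ne (Ne.symm hb')]
    · intro h
      exact absurd (Finset.mem_univ b) h
  have hpos := Pool.Agent.Y466.KS.le_sigPos_of_map (Pool.Agent.Y466.KS.QF G) φ (by
    intro y hy
    rw [hval]
    obtain ⟨⟨b, i⟩, hbi⟩ := Function.ne_iff.1 hy
    have h0 : ∀ b i, 0 ≤ (d i : ℝ) * y (b, i) ^ 2 := fun b i =>
      mul_nonneg (by exact_mod_cast (hd i).le) (sq_nonneg _)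
    refine Finset.sum_pos' (fun b _ => Finset.sum_nonneg fun i _ => h0 b i)
      ⟨b, Finset.mem_univ b, ?_⟩
    refine Finset.sum_pos' (fun i _ => h0 b i) ⟨i, Finset.mem_univ i, ?_⟩
    have h1 : (0 : ℝ) < d i := by exact_mod_cast hd i
    have h2 : y (b, i) ≠ 0 := by simpa using hbi
    positivity)
  have hrad := QuadraticForm.sigPos_add_sigNeg_add_radical (Q := Pool.Agent.Y466.KS.QF G)
  rw [Module.finrank_pi] at hpos hrad
  simp only [Fintype.card_sum, Fintype.card_prod, Fintype.card_fin] at hpos hrad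
  change 8 * (Fintype.card β : ℤ) - Fintype.card α ≤
    (sigPos (Pool.Agent.Y466.KS.QF G) : ℤ) - (sigNeg (Pool.Agent.Y466.KS.QF G) : ℤ)
  omega

end Pool.Agent.Y47.TQ
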